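import Pool.Agent.R963.KH.Stm

/-!
# KH-14b: rotation invariant bump functions
-/

set_option maxHeartbeats 400000

open scoped ContDiff Topology
open Set Filter

namespace Pool.Agent.R963.KH

noncomputable section

namespace Bump

/-- the invariants -/
def I (w : V) : Fin 5 → ℝ := ![r2 w, aa w, pth w, w 2, w 5]

theorem r2_smooth : ContDiff ℝ ∞ r2 := by
  unfold r2
  fun_prop

theorem aa_smooth : ContDiff ℝ ∞ aa := by
  unfold aa
  fun_prop

theorem pth_smooth : ContDiff ℝ ∞ pth := by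
  unfold pth
  fun_prop

theorem I_smooth : ContDiff ℝ ∞ I := by
  rw [contDiff_pi]
  intro i
  fin_cases i
  · exact r2_smooth
  · exact aa_smooth
  · exact pth_smooth
  · exact contDiff_apply ℝ ℝ (2 : Fin 6)
  · exact contDiff_apply ℝ ℝ (5 : Fin 6)

theorem I_rot (θ : ℝ) (w : V) : I (Rot θ w) = I w := by
  have hcs := Real.cos_sq_add_sin_sq θ
  have h0 : r2 (Rot θ w) = r2 w := by
    show (Real.cos θ * w 0 - Real.sin θ * w 1) ^ 2 + (Real.sin θ * w 0 + Real.cos θ * w 1) ^ 2 =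
      w 0 ^ 2 + w 1 ^ 2
    linear_combination (w 0 ^ 2 + w 1 ^ 2) * hcs
  have h1 : aa (Rot θ w) = aa w := by
    show (Real.cos θ * w 0 - Real.sin θ * w 1) * (Real.cos θ * w 3 - Real.sin θ * w 4) +
      (Real.sin θ * w 0 + Real.cos θ * w 1) * (Real.sin θ * w 3 + Real.cos θ * w 4) =
      w 0 * w 3 + w 1 * w 4
    linear_combination (w 0 * w 3 + w 1 * w 4) * hcs
  have h2 : pth (Rot θ w) = pth w := by
    show (Real.cos θ * w 0 - Real.sin θ * w 1) * (Real.sin θ * w 3 + Real.cos θ * w 4) -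
      (Real.sin θ * w 0 + Real.cos θ * w 1) * (Real.cos θ * w 3 - Real.sin θ * w 4) =
      w 0 * w 4 - w 1 * w 3
    linear_combination (w 0 * w 4 - w 1 * w 3) * hcs
  unfold I
  rw [h0, h1, h2]
  rfl

theorem exists_angle {a b : ℝ} (h : a ^ 2 + b ^ 2 = 1) : ∃ θ, Real.cos θ = a ∧ Real.sin θ = b := by
  have hn : ‖(⟨a, b⟩ : ℂ)‖ = 1 := by
    have := Complex.sq_norm (⟨a, b⟩ : ℂ)
    rw [Complex.normSq_mk] at this
    have h2 : ‖(⟨a, b⟩ : ℂ)‖ ^ 2 = 1 := by rw [this]; linarith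
    nlinarith [norm_nonneg (⟨a, b⟩ : ℂ)]
  refine ⟨Complex.arg ⟨a, b⟩, ?_, ?_⟩
  · have := Complex.norm_mul_cos_arg (⟨a, b⟩ : ℂ)
    rwa [hn, one_mul] at this
  · have := Complex.norm_mul_sin_arg (⟨a, b⟩ : ℂ)
    rwa [hn, one_mul] at this

theorem rot_of_I {w₀ w : V} (hp : 0 < r2 w₀) (h : I w = I w₀) : ∃ θ, w = Rot θ w₀ := by
  have e0 : w 0 ^ 2 + w 1 ^ 2 = w₀ 0 ^ 2 + w₀ 1 ^ 2 := congrFun h 0
  have e1 : w 0 * w 3 + w 1 * w 4 = w₀ 0 * w₀ 3 + w₀ 1 * w₀ 4 := congrFun h 1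
  have e2 : w 0 * w 4 - w 1 * w 3 = w₀ 0 * w₀ 4 - w₀ 1 * w₀ 3 := congrFun h 2
  have e3 : w 2 = w₀ 2 := congrFun h 3
  have e4 : w 5 = w₀ 5 := congrFun h 4
  have hc : 0 < w₀ 0 ^ 2 + w₀ 1 ^ 2 := hp
  set c := w₀ 0 ^ 2 + w₀ 1 ^ 2 with hcdef
  have hcne : c ≠ 0 := hc.ne'
  obtain ⟨θ, hθ1, hθ2⟩ := exists_angle (a := (w 0 * w₀ 0 + w 1 * w₀ 1) / c)
    (b := (w₀ 0 * w 1 - w₀ 1 * w 0) / c) (by
      rw [div_pow, div_pow, ← add_div, div_eq_one_iff_eq (pow_ne_zero 2 hcne)]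
      have : (w 0 * w₀ 0 + w 1 * w₀ 1) ^ 2 + (w₀ 0 * w 1 - w₀ 1 * w 0) ^ 2 =
        (w 0 ^ 2 + w 1 ^ 2) * (w₀ 0 ^ 2 + w₀ 1 ^ 2) := by ring
      rw [this, e0]
      ring)
  have h1 : Real.cos θ * c = w 0 * w₀ 0 + w 1 * w₀ 1 := by
    rw [hθ1]
    field_simp
  have h2 : Real.sin θ * c = w₀ 0 * w 1 - w₀ 1 * w 0 := by
    rw [hθ2]
    field_simp
  refine ⟨θ, ?_⟩
  funext i
  fin_cases i
  · show w 0 = Real.cos θ * w₀ 0 - Real.sin θ * w₀ 1
    apply mul_right_cancel₀ hcne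
    linear_combination - w₀ 0 * h1 + w₀ 1 * h2
  · show w 1 = Real.sin θ * w₀ 0 + Real.cos θ * w₀ 1
    apply mul_right_cancel₀ hcne
    linear_combination - w₀ 0 * h2 - w₀ 1 * h1
  · exact e3
  · show w 3 = Real.cos θ * w₀ 3 - Real.sin θ * w₀ 4
    apply mul_right_cancel₀ hcne
    linear_combination - w₀ 3 * h1 + w₀ 4 * h2 - w 3 * e0 + w 0 * e1 - w 1 * e2
  · show w 4 = Real.sin θ * w₀ 3 + Real.cos θ * w₀ 4
    apply mul_right_cancel₀ hcne
    linear_combination - w₀ 3 * h2 - w₀ 4 * h1 - w 4 * e0 + w 1 * e1 + w 0 * e2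
  · exact e4

theorem bounded {w₀ : V} (hp : 0 < r2 w₀) :
    IsCompact {w : V | dist (I w) (I w₀) ≤ r2 w₀ / 2} := by
  apply Metric.isCompact_of_isClosed_isBounded
  · exact isClosed_le (I_smooth.continuous.dist continuous_const) continuous_const
  · set c := r2 w₀ with hc
    set A := |aa w₀| + c with hA
    set Q := |pth w₀| + c with hQ
    have hApos : 0 ≤ A := by positivity
    have hQpos : 0 ≤ Q := by positivity
    set R := 2 * c + 1 + (A ^ 2 + Q ^ 2) / (c / 2) + |w₀ 2| + c + |w₀ 5| with hR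
    apply Bornology.IsBounded.subset (Metric.isBounded_closedBall (x := (0 : V)) (r := R))
    intro w hw
    rw [mem_closedBall_zero_iff]
    have hd : ∀ i, |I w i - I w₀ i| ≤ c / 2 := fun i => by
      have := (dist_pi_le_iff (by positivity)).1 hw i
      rwa [Real.dist_eq] at this
    have d0 : |r2 w - c| ≤ c / 2 := hd 0
    have d1 : |aa w - aa w₀| ≤ c / 2 := hd 1
    have d2 : |pth w - pth w₀| ≤ c / 2 := hd 2
    have d3 : |w 2 - w₀ 2| ≤ c / 2 := hd 3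
    have d4 : |w 5 - w₀ 5| ≤ c / 2 := hd 4
    obtain ⟨r1, r3⟩ := abs_le.1 d0
    have a1 : |aa w| ≤ A := by
      have := abs_sub_abs_le_abs_sub (aa w) (aa w₀)
      linarith
    have a2 : |pth w| ≤ Q := by
      have := abs_sub_abs_le_abs_sub (pth w) (pth w₀)
      linarith
    have a3 : aa w ^ 2 ≤ A ^ 2 := sq_le_sq' (by linarith [neg_abs_le (aa w)]) ((le_abs_self _).trans a1)
    have a4 : pth w ^ 2 ≤ Q ^ 2 :=
      sq_le_sq' (by linarith [neg_abs_le (pth w)]) ((le_abs_self _).trans a2)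
    have hid : (w 3 ^ 2 + w 4 ^ 2) * r2 w = aa w ^ 2 + pth w ^ 2 := by
      unfold r2 aa pth
      ring
    have hr : c / 2 ≤ r2 w := by linarith
    have hpp : w 3 ^ 2 + w 4 ^ 2 ≤ (A ^ 2 + Q ^ 2) / (c / 2) := by
      rw [le_div_iff₀ (by positivity)]
      have : (w 3 ^ 2 + w 4 ^ 2) * (c / 2) ≤ (w 3 ^ 2 + w 4 ^ 2) * r2 w :=
        mul_le_mul_of_nonneg_left hr (by positivity)
      linarith
    have hxy : w 0 ^ 2 + w 1 ^ 2 ≤ 2 * c := by
      have : r2 w = w 0 ^ 2 + w 1 ^ 2 := rfl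
      linarith
    have hfrac : 0 ≤ (A ^ 2 + Q ^ 2) / (c / 2) := by positivity
    have hsq : ∀ t : ℝ, |t| ≤ 1 + t ^ 2 := fun t => by
      rw [← sq_abs]
      nlinarith [abs_nonneg t]
    have g0 := abs_nonneg (w₀ 2)
    have g1 := abs_nonneg (w₀ 5)
    rw [pi_norm_le_iff_of_nonneg (by positivity)]
    intro i
    rw [Real.norm_eq_abs]
    fin_cases i
    · show |w 0| ≤ R
      have := hsq (w 0)
      nlinarith [sq_nonneg (w 1)]
    · show |w 1| ≤ R
      have := hsq (w 1)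
      nlinarith [sq_nonneg (w 0)]
    · show |w 2| ≤ R
      have := abs_sub_abs_le_abs_sub (w 2) (w₀ 2)
      linarith
    · show |w 3| ≤ R
      have := hsq (w 3)
      nlinarith [sq_nonneg (w 4)]
    · show |w 4| ≤ R
      have := hsq (w 4)
      nlinarith [sq_nonneg (w 3)]
    · show |w 5| ≤ R
      have := abs_sub_abs_le_abs_sub (w 5) (w₀ 5)
      linarith

theorem exists_eps {w₀ : V} (hp : 0 < r2 w₀) {O : Set V} (hO : IsOpen O) (hw : w₀ ∈ O)
    (hrot : ∀ θ, ∀ w ∈ O, Rot θ w ∈ O) :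
    ∃ ε, 0 < ε ∧ ε ≤ r2 w₀ / 2 ∧ {w : V | dist (I w) (I w₀) ≤ ε} ⊆ O := by
  have hK := (bounded hp).diff hO
  rcases ({w : V | dist (I w) (I w₀) ≤ r2 w₀ / 2} \ O).eq_empty_or_nonempty with h | h
  · exact ⟨r2 w₀ / 2, by linarith, le_rfl, sdiff_eq_empty.1 h⟩
  · obtain ⟨u, hu, hmin⟩ := hK.exists_isMinOn h
      ((I_smooth.continuous.dist continuous_const).continuousOn (s :=
        {w : V | dist (I w) (I w₀) ≤ r2 w₀ / 2} \ O) : ContinuousOn (fun w => dist (I w) (I w₀)) _)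
    have hpos : 0 < dist (I u) (I w₀) := by
      rw [dist_pos]
      intro he
      obtain ⟨θ, hθ⟩ := rot_of_I hp he
      apply hu.2
      rw [hθ]
      exact hrot θ w₀ hw
    refine ⟨min (r2 w₀ / 2) (dist (I u) (I w₀) / 2), lt_min (by linarith) (by linarith),
      min_le_left _ _, ?_⟩
    intro w hwε
    by_contra hcon
    have h1 : dist (I w) (I w₀) ≤ min (r2 w₀ / 2) (dist (I u) (I w₀) / 2) := hwε
    have h2 := hmin (⟨h1.trans (min_le_left _ _), hcon⟩ :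
      w ∈ {w : V | dist (I w) (I w₀) ≤ r2 w₀ / 2} \ O)
    have h3 : dist (I u) (I w₀) ≤ dist (I w) (I w₀) := h2
    have h4 := h1.trans (min_le_right _ _)
    linarith

end Bump

open Bump in
/-- KH-14b -/
theorem t_bump (_hf : S_field) (hv : S_vec) : S_bump := by
  intro w₀ O hw₀ hp0 _ hO hwO hrot
  obtain ⟨v, v1, v2, v3, v4⟩ := hv w₀ hw₀ hp0
  have hp : 0 < r2 w₀ := by
    have h1 : 0 ≤ r2 w₀ := by unfold r2; positivity
    rcases h1.lt_or_eq with h | h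
    · exact h
    · exfalso
      apply hp0
      have h2 : w₀ 0 ^ 2 + w₀ 1 ^ 2 = 0 := h.symm
      have h3 : w₀ 0 = 0 := by nlinarith [sq_nonneg (w₀ 0), sq_nonneg (w₀ 1)]
      have h4 : w₀ 1 = 0 := by nlinarith [sq_nonneg (w₀ 0), sq_nonneg (w₀ 1)]
      unfold pth
      rw [h3, h4]
      ring
  obtain ⟨ε, hε, hε2, hsub⟩ := exists_eps hp hO hwO hrot
  -- a coordinate
  have hi : ∃ i : Fin 5, fderiv ℝ (fun w => I w i) w₀ v ≠ 0 := by
    by_contra hcon
    push Not at hcon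
    apply v4
    refine ⟨hcon 0, hcon 1, hcon 2, ?_, ?_⟩
    · have h := hcon 3
      have h2 : fderiv ℝ (fun w : V => w 2) w₀ = ContinuousLinearMap.proj (2 : Fin 6) :=
        (ContinuousLinearMap.proj (R := ℝ) (φ := fun _ : Fin 6 => ℝ) (2 : Fin 6)).fderiv
      have h3 : fderiv ℝ (fun w : V => w 2) w₀ v = 0 := h
      rw [h2] at h3
      exact h3
    · have h := hcon 4
      have h2 : fderiv ℝ (fun w : V => w 5) w₀ = ContinuousLinearMap.proj (5 : Fin 6) :=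
        (ContinuousLinearMap.proj (R := ℝ) (φ := fun _ : Fin 6 => ℝ) (5 : Fin 6)).fderiv
      have h3 : fderiv ℝ (fun w : V => w 5) w₀ v = 0 := h
      rw [h2] at h3
      exact h3
  obtain ⟨i, hi⟩ := hi
  let χ : ContDiffBump (I w₀) := ⟨ε / 2, ε, by linarith, by linarith⟩
  let h : V → ℝ := fun w => χ (I w) * (I w i - I w₀ i)
  have hcoord : ContDiff ℝ ∞ (fun w => I w i) := (contDiff_pi.1 I_smooth) i
  have hsm : ContDiff ℝ ∞ h :=
    (χ.contDiff.comp I_smooth).mul (hcoord.sub contDiff_const)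
  have hsupp : tsupport h ⊆ {w : V | dist (I w) (I w₀) ≤ ε} := by
    apply closure_minimal
    · intro w hw
      by_contra hcon
      apply hw
      have h1 : ε ≤ dist (I w) (I w₀) := (not_le.1 hcon).le
      show χ (I w) * (I w i - I w₀ i) = 0
      rw [χ.zero_of_le_dist h1, zero_mul]
    · exact isClosed_le (I_smooth.continuous.dist continuous_const) continuous_const
  refine ⟨h, hsm, ?_, hsupp.trans hsub, ?_, v, v1, v2, v3, ?_⟩
  · exact (bounded hp).of_isClosed_subset (isClosed_tsupport h)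
      (hsupp.trans fun w hw => le_trans hw hε2)
  · intro θ w
    show χ (I (Rot θ w)) * (I (Rot θ w) i - I w₀ i) = χ (I w) * (I w i - I w₀ i)
    rw [I_rot]
  · have hev : h =ᶠ[𝓝 w₀] fun w => I w i - I w₀ i := by
      have h1 : ∀ᶠ w in 𝓝 w₀, χ (I w) = 1 :=
        (I_smooth.continuous.tendsto w₀).eventually χ.eventuallyEq_one
      filter_upwards [h1] with w hw
      show χ (I w) * (I w i - I w₀ i) = I w i - I w₀ i
      rw [hw, one_mul]
    rw [hev.fderiv_eq]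
    have h2 : fderiv ℝ (fun w => I w i - I w₀ i) w₀ = fderiv ℝ (fun w => I w i) w₀ :=
      fderiv_sub_const _
    rw [h2]
    exact hi

end

end Pool.Agent.R963.KH
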